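import Mathlib
import Pool.Agent.MP_2c685a_gt.Po.Fin

set_option autoImplicit false

open MeasureTheory
open scoped Pointwise

namespace Pool.Agent.Results.MP_2c685a_gt.NoPolytope

/-- Euclidean space. -/
abbrev Eu (n : ℕ) : Type := EuclideanSpace ℝ (Fin n)

variable {n : ℕ}

/-- A finite Minkowski sum of segments. -/
def IsZonotope (Z : ConvexBody (Eu n)) : Prop :=
  ∃ (m : ℕ) (a b : Fin m → Eu n), (Z : Set (Eu n)) = ∑ i, segment ℝ (a i) (b i)

/-- A Hausdorff limit of zonotopes. -/
def IsZonoid (Z : ConvexBody (Eu n)) : Prop := Z ∈ closure {W | IsZonotope W}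

/-- The polar set. -/
def polar (L : Set (Eu n)) : Set (Eu n) := {x | ∀ y ∈ L, inner ℝ x y ≤ 1}

/-- The intersection body: the star body whose radial function at the unit vector `u` is the
`(n-1)`-dimensional volume of the section of `K` by the hyperplane orthogonal to `u`. -/
def interBody (K : Set (Eu n)) : Set (Eu n) :=
  {x | ∃ u : Eu n, ‖u‖ = 1 ∧ ∃ t : ℝ, 0 ≤ t ∧
    t ≤ (Measure.euclideanHausdorffMeasure (n - 1) (K ∩ {y | inner ℝ u y = 0})).toReal ∧
    x = t • u}

open Pool.Agent.MP_2c685a_gt in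
/-- For `n ≥ 3` the intersection body of an origin-symmetric polytope with interior points is
never the polar of a zonoid. -/
theorem result (n : ℕ) (hn : 3 ≤ n) (V : Finset (Eu n))
    (hs : ∀ x ∈ convexHull ℝ (V : Set (Eu n)), -x ∈ convexHull ℝ (V : Set (Eu n)))
    (hi : (interior (convexHull ℝ (V : Set (Eu n)))).Nonempty) :
    ¬ ∃ Z : ConvexBody (Eu n), IsZonoid Z ∧
      interBody (convexHull ℝ (V : Set (Eu n))) = polar (Z : Set (Eu n)) := by
  rintro ⟨Z, hZ, h⟩
  obtain ⟨A, hA⟩ := Po.hull_eq V hs hi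
  refine Po.poly_main n hn A (hA ▸ (V.finite_toSet.isCompact_convexHull ℝ).isBounded) ?_
  rw [← hA]
  refine bad_of_polar (Z := Z) ?_ h
  refine closure_minimal ?_ isClosed_wrep hZ
  rintro W ⟨m, a, b, hW⟩
  exact (congrArg WRep hW).mpr (wrep_sum Finset.univ a b)

end Pool.Agent.Results.MP_2c685a_gt.NoPolytope
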