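import Mathlib
import Pool.Agent.MP_2c685a_gt.Lit

set_option autoImplicit false

open MeasureTheory
open scoped Pointwise

namespace Pool.Agent.Results.MP_2c685a_gt.NowhereDense

/-- Euclidean space. -/
abbrev Eu (n : ℕ) : Type := EuclideanSpace ℝ (Fin n)

/-- Origin-symmetric compact convex sets with non-empty interior, with the Hausdorff metric. -/
abbrev SymBody (n : ℕ) : Type :=
  {K : ConvexBody (Eu n) // (∀ x ∈ (K : Set (Eu n)), -x ∈ (K : Set (Eu n))) ∧
    (interior (K : Set (Eu n))).Nonempty}

variable {n : ℕ}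

/-- A finite Minkowski sum of segments. -/
def IsZonotope (Z : ConvexBody (Eu n)) : Prop :=
  ∃ (m : ℕ) (a b : Fin m → Eu n), (Z : Set (Eu n)) = ∑ i, segment ℝ (a i) (b i)

/-- A Hausdorff limit of zonotopes. -/
def IsZonoid (Z : ConvexBody (Eu n)) : Prop := Z ∈ closure {W | IsZonotope W}

/-- The polar set. -/
def polar (L : Set (Eu n)) : Set (Eu n) := {x | ∀ y ∈ L, inner ℝ x y ≤ 1}

/-- The intersection body: the star body whose radial function at the unit vector `u` is the
`(n-1)`-dimensional volume of the section of `K` by the hyperplane orthogonal to `u`. -/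
def interBody (K : Set (Eu n)) : Set (Eu n) :=
  {x | ∃ u : Eu n, ‖u‖ = 1 ∧ ∃ t : ℝ, 0 ≤ t ∧
    t ≤ (Measure.euclideanHausdorffMeasure (n - 1) (K ∩ {y | inner ℝ u y = 0})).toReal ∧
    x = t • u}

/-- The bodies whose intersection body is the polar of a zonoid. -/
def PolarZonoidal (n : ℕ) : Set (SymBody n) :=
  {K | ∃ Z : ConvexBody (Eu n), IsZonoid Z ∧
    interBody (K.1 : Set (Eu n)) = polar (Z : Set (Eu n))}

open Pool.Agent.MP_2c685a_gt in
/-- For `n ≥ 3` the origin-symmetric convex bodies whose intersection body is the polar of a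
zonoid form a nowhere dense, hence meagre, set. -/
theorem result (n : ℕ) (hn : 3 ≤ n) :
    IsNowhereDense (PolarZonoidal n) ∧ IsMeagre (PolarZonoidal n) := by
  suffices h : IsNowhereDense (PolarZonoidal n) from ⟨h, h.isMeagre⟩
  refine Set.eq_empty_of_subset_empty ((interior_mono (closure_minimal ?_
    isOpen_interior.isClosed_compl)).trans (dense_main n hn).interior_compl.subset)
  rintro K ⟨Z, hZ, h⟩ hK
  refine interior_subset hK (bad_of_polar (Z := Z) ?_ h)
  refine closure_minimal ?_ isClosed_wrep hZ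
  rintro W ⟨m, a, b, hW⟩
  exact (congrArg WRep hW).mpr (wrep_sum Finset.univ a b)

end Pool.Agent.Results.MP_2c685a_gt.NowhereDense
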